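import Mathlib

/-!
# Chains of ideals on the Cantor space
-/

set_option autoImplicit false
set_option linter.all false

namespace Pool.Agent.X317.CF

/-- the Cantor space -/
abbrev C2 : Type := ℕ → Bool

/-- closed under subsets -/
def Down (I : Set (Set C2)) : Prop := ∀ a b : Set C2, a ⊆ b → b ∈ I → a ∈ I

/-- ideals -/
def IsIdeal (I : Set (Set C2)) : Prop := ∅ ∈ I ∧ (∀ a ∈ I, ∀ b ∈ I, a ∪ b ∈ I) ∧ Down I

/-- sigma-ideals -/
def IsSigma (I : Set (Set C2)) : Prop :=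
  ∅ ∈ I ∧ (∀ s : ℕ → Set C2, (∀ n, s n ∈ I) → (⋃ n, s n) ∈ I) ∧ Down I

/-- Borel sigma-ideals -/
def IsBorelSigma (I : Set (Set C2)) : Prop :=
  IsSigma I ∧ ∀ a ∈ I, ∃ b ∈ I, a ⊆ b ∧ @MeasurableSet C2 (borel C2) b

/-- a strictly increasing sequence of length `γ` of families in the class `P`, with union `I` -/
def IsSeq (P : Set (Set C2) → Prop) (I : Set (Set C2)) (γ : Ordinal.{0})
    (F : Ordinal.{0} → Set (Set C2)) : Prop :=
  Order.IsSuccLimit γ ∧ (∀ α < γ, P (F α)) ∧ (∀ a, a ∈ I ↔ ∃ α < γ, a ∈ F α) ∧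
    ∀ α β, α < β → β < γ → F α ⊂ F β

/-- least length of a sequence of families in the class `P` -/
noncomputable def cofOf (P : Set (Set C2) → Prop) (I : Set (Set C2)) : WithTop Ordinal.{0} :=
  sInf {c | ∃ (γ : Ordinal.{0}) (F : Ordinal.{0} → Set (Set C2)), c = (γ : WithTop Ordinal.{0}) ∧ IsSeq P I γ F}

/-- `cofin*` -/
noncomputable def cofinStar (I : Set (Set C2)) : WithTop Ordinal.{0} := cofOf Down I

/-- `cofin⁻` -/
noncomputable def cofinMinus (I : Set (Set C2)) : WithTop Ordinal.{0} := cofOf IsIdeal I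

/-- `cofin` -/
noncomputable def cofin (I : Set (Set C2)) : WithTop Ordinal.{0} := cofOf IsSigma I

/-- `cofin⁺` -/
noncomputable def cofinPlus (I : Set (Set C2)) : WithTop Ordinal.{0} :=
  sInf {c | ∃ (γ : Ordinal.{0}) (F : Ordinal.{0} → Set (Set C2)), c = (γ : WithTop Ordinal.{0}) ∧
    IsSeq IsSigma I γ F ∧ ∀ x : C2, {x} ∈ F 0}

/-- eventual domination -/
def leS (f g : ℕ → ℕ) : Prop := ∀ᶠ n in Filter.atTop, f n ≤ g n

/-- the bounding number `𝔟` -/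
noncomputable def bb : Cardinal.{0} :=
  sInf {c | ∃ F : Set (ℕ → ℕ), (∀ g, ∃ f ∈ F, ¬ leS f g) ∧ c = Cardinal.mk F}

/-- groupwise dense families -/
def GroupwiseDense (G : Set (Set ℕ)) : Prop :=
  (∀ X ∈ G, X.Infinite) ∧ (∀ X ∈ G, ∀ Y : Set ℕ, Y.Infinite → (Y \ X).Finite → Y ∈ G) ∧
    ∀ a : ℕ → ℕ, StrictMono a → a 0 = 0 → ∃ Z : Set ℕ, Z.Infinite ∧ (⋃ n ∈ Z, Set.Ico (a n) (a (n + 1))) ∈ G

/-- the groupwise density number `𝔤` -/
noncomputable def gg : Cardinal.{0} :=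
  sInf {c | ∃ S : Set (Set (Set ℕ)), (∀ G ∈ S, GroupwiseDense G) ∧ ⋂₀ S = ∅ ∧ c = Cardinal.mk S}

end Pool.Agent.X317.CF
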