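import Mathlib
import Pool.Agent.X317.CF.Def

/-!
# The ideal of countable sets
-/

set_option autoImplicit false
set_option linter.all false

namespace Pool.Agent.X317.CF

open Cardinal

/-- countable sets -/
def CT : Set (Set C2) := {A | A.Countable}

theorem CT_sigma : IsSigma CT :=
  ⟨Set.countable_empty, fun s hs => Set.countable_iUnion hs, fun a b hab hb => hb.mono hab⟩

theorem CT_borel : IsBorelSigma CT := by
  refine ⟨CT_sigma, ?_⟩
  intro a ha
  letI : MeasurableSpace C2 := borel C2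
  haveI : BorelSpace C2 := ⟨rfl⟩
  refine ⟨a, ha, subset_rfl, ?_⟩
  have ha' : a.Countable := ha
  exact ha'.measurableSet

theorem CT_plus : cofinPlus CT = ⊤ := by
  have h : {c : WithTop Ordinal.{0} | ∃ (γ : Ordinal.{0}) (F : Ordinal.{0} → Set (Set C2)),
      c = (γ : WithTop Ordinal.{0}) ∧ IsSeq IsSigma CT γ F ∧ ∀ x : C2, {x} ∈ F 0} = ∅ := by
    rw [Set.eq_empty_iff_forall_notMem]
    rintro _ ⟨γ, F, rfl, ⟨hlim, hP, hun, hlt⟩, hx⟩
    have h0 : (0 : Ordinal.{0}) < γ := hlim.bot_lt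
    have h1 : Order.succ (0 : Ordinal.{0}) < γ := hlim.succ_lt h0
    obtain ⟨A, hA, hA'⟩ := Set.exists_of_ssubset (hlt 0 (Order.succ 0) (Order.lt_succ 0) h1)
    have hc : A.Countable := (hun A).2 ⟨_, h1, hA⟩
    apply hA'
    rcases A.eq_empty_or_nonempty with rfl | hne
    · exact (hP 0 h0).1
    · obtain ⟨e, rfl⟩ := hc.exists_eq_range hne
      have h2 : (⋃ n, {e n}) ∈ F 0 := (hP 0 h0).2.1 _ (fun n => hx (e n))
      rw [Set.iUnion_singleton_eq_range] at h2
      exact h2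
  rw [cofinPlus, h]
  exact WithTop.sInf_empty

theorem exists_emb : ∃ j : (Ordinal.omega.{0} 1).ToType → C2, Function.Injective j := by
  have h : Cardinal.mk (Ordinal.omega.{0} 1).ToType ≤ Cardinal.mk C2 := by
    rw [Cardinal.mk_toType, Ordinal.card_omega]
    have h2 : Cardinal.mk C2 = Cardinal.continuum := by simp [C2]
    rw [h2]
    exact Cardinal.aleph_one_le_continuum
  obtain ⟨j⟩ := (Cardinal.le_def _ _).1 h
  exact ⟨j, j.injective⟩

theorem CT_le : cofin CT ≤ (Ordinal.omega.{0} 1 : Ordinal.{0}) := by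
  obtain ⟨j, hj⟩ := exists_emb
  apply sInf_le
  refine ⟨Ordinal.omega.{0} 1, fun α => {A | A.Countable ∧ ∀ w, j w ∈ A → (w : Ordinal.{0}) ≤ α}, rfl,
    Cardinal.isSuccLimit_omega 1, ?_, ?_, ?_⟩
  · intro α hα
    refine ⟨⟨Set.countable_empty, fun w hw => hw.elim⟩, ?_, ?_⟩
    · intro s hs
      refine ⟨Set.countable_iUnion (fun n => (hs n).1), ?_⟩
      intro w hw
      obtain ⟨n, hn⟩ := Set.mem_iUnion.1 hw
      exact (hs n).2 w hn
    · rintro a b hab ⟨hb, hb'⟩
      exact ⟨hb.mono hab, fun w hw => hb' w (hab hw)⟩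
  · intro A
    constructor
    · intro hA
      have hA' : A.Countable := hA
      have hc : (j ⁻¹' A).Countable := hA'.preimage hj
      haveI : Countable (j ⁻¹' A) := hc
      refine ⟨⨆ w : (j ⁻¹' A), ((w.1 : (Ordinal.omega.{0} 1).ToType) : Ordinal.{0}), ?_, hA', ?_⟩
      · exact Ordinal.iSup_lt_omega_one (fun w => w.1.toOrd.2)
      · intro w hw
        exact le_ciSup (Ordinal.bddAbove_of_small) (⟨w, hw⟩ : (j ⁻¹' A))
    · rintro ⟨α, hα, hA⟩
      exact hA.1
  · intro α β hαβ hβ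
    constructor
    · rintro A ⟨hA, hA'⟩
      exact ⟨hA, fun w hw => (hA' w hw).trans hαβ.le⟩
    · intro h
      have h0 : ((Ordinal.ToType.mk ⟨β, hβ⟩ : (Ordinal.omega.{0} 1).ToType) : Ordinal.{0}) = β := by
        show ((Ordinal.ToType.mk.symm (Ordinal.ToType.mk ⟨β, hβ⟩) : Set.Iio (Ordinal.omega.{0} 1)) : Ordinal.{0}) = β
        rw [OrderIso.symm_apply_apply]
      have h1 := h (⟨Set.countable_singleton _, fun w hw => by
        have e := hj hw
        rw [e, h0]⟩ : ({j (Ordinal.ToType.mk ⟨β, hβ⟩)} : Set C2) ∈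
          {A : Set C2 | A.Countable ∧ ∀ w, j w ∈ A → (w : Ordinal.{0}) ≤ β})
      have h2 := h1.2 (Ordinal.ToType.mk ⟨β, hβ⟩) rfl
      rw [h0] at h2
      exact absurd h2 (not_le.2 hαβ)

end Pool.Agent.X317.CF
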