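import Mathlib
import Pool.Agent.X317.CF.Def

/-!
# Groupwise density
-/

set_option autoImplicit false
set_option linter.all false

namespace Pool.Agent.X317.CF

open Filter

/-- the point `x` is below `g` at infinitely many places -/
def BB (g : ℕ → ℕ) : Set C2 :=
  {x | ∃ᶠ n in atTop, (∃ m < g n, x (Nat.pair n m) = true) ∨ (∀ m, x (Nat.pair n m) = false)}

/-- the ideal of non-dominating sets -/
def ND : Set (Set C2) := {A | ∃ g : ℕ → ℕ, A ⊆ BB g}

theorem BB_mono {f g : ℕ → ℕ} (h : leS f g) : BB f ⊆ BB g := by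
  intro x hx
  refine (Frequently.and_eventually hx h).mono ?_
  rintro n ⟨h1 | h1, h2⟩
  · obtain ⟨m, hm, hx⟩ := h1
    exact Or.inl ⟨m, by omega, hx⟩
  · exact Or.inr h1

theorem BB_sup {f g h : ℕ → ℕ} (hf : ∀ᶠ n in atTop, f n ≤ g n ∨ f n ≤ h n) : BB f ⊆ BB g ∪ BB h := by
  intro x hx
  have h1 : ∃ᶠ n in atTop, ((∃ m < g n, x (Nat.pair n m) = true) ∨ (∀ m, x (Nat.pair n m) = false)) ∨
      ((∃ m < h n, x (Nat.pair n m) = true) ∨ (∀ m, x (Nat.pair n m) = false)) := by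
    refine (Frequently.and_eventually hx hf).mono ?_
    rintro n ⟨h1 | h1, h2⟩
    · obtain ⟨m, hm, hx⟩ := h1
      rcases h2 with h2 | h2
      · exact Or.inl (Or.inl ⟨m, by omega, hx⟩)
      · exact Or.inr (Or.inl ⟨m, by omega, hx⟩)
    · exact Or.inl (Or.inr h1)
  rw [frequently_or_distrib] at h1
  exact h1

/-- a code -/
def code (g : ℕ → ℕ) : C2 := fun k => decide ((Nat.unpair k).2 = g (Nat.unpair k).1)

theorem code_eq (g : ℕ → ℕ) (n m : ℕ) : code g (Nat.pair n m) = true ↔ m = g n := by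
  unfold code
  rw [Nat.unpair_pair]
  simp

theorem code_mem (g f : ℕ → ℕ) : code g ∈ BB f ↔ ∃ᶠ n in atTop, g n < f n := by
  have key : ∀ n, ((∃ m < f n, code g (Nat.pair n m) = true) ∨ (∀ m, code g (Nat.pair n m) = false)) ↔
      g n < f n := by
    intro n
    constructor
    · rintro (⟨m, hm, h⟩ | h)
      · rw [code_eq] at h
        omega
      · have h1 := h (g n)
        have h2 : code g (Nat.pair n (g n)) = true := (code_eq g n (g n)).2 rfl
        rw [h1] at h2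
        exact absurd h2 (by simp)
    · intro h
      exact Or.inl ⟨g n, h, (code_eq g n (g n)).2 rfl⟩
  show (∃ᶠ n in atTop, (∃ m < f n, code g (Nat.pair n m) = true) ∨ (∀ m, code g (Nat.pair n m) = false)) ↔ _
  simp only [key]

theorem BB_sub {f g : ℕ → ℕ} : BB f ⊆ BB g ↔ leS f g := by
  constructor
  · intro h
    by_contra hc
    have h1 : ∃ᶠ n in atTop, g n < f n := by
      have h2 : ∃ᶠ n in atTop, ¬ (f n ≤ g n) := not_eventually.1 hc
      exact h2.mono (fun n hn => by omega)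
    have h2 := h ((code_mem g f).2 h1)
    rw [code_mem] at h2
    obtain ⟨n, hn⟩ := h2.exists
    omega
  · exact BB_mono

/-- the next element -/
noncomputable def nx (X : Set ℕ) (k : ℕ) : ℕ := sInf {m | m ∈ X ∧ k < m}

theorem nx_mem {X : Set ℕ} (hX : X.Infinite) (k : ℕ) : nx X k ∈ X ∧ k < nx X k := by
  obtain ⟨m, hm, hk⟩ := hX.exists_gt k
  exact Nat.sInf_mem (s := {m | m ∈ X ∧ k < m}) ⟨m, hm, hk⟩

theorem nx_le {X : Set ℕ} {k m : ℕ} (hm : m ∈ X) (hk : k < m) : nx X k ≤ m := Nat.sInf_le ⟨hm, hk⟩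

theorem cover (g : ℕ → ℕ) (a : ℕ → ℕ) (ha : StrictMono a) : ∃ Z : ℕ → Set ℕ, (∀ i, (Z i).Infinite) ∧
    ∀ᶠ k in atTop, ∃ i < 3, g k ≤ nx (⋃ n ∈ Z i, Set.Ico (a n) (a (n + 1))) k := by
  let f : ℕ → ℕ := fun k => (Finset.range (k + 1)).sup g
  have hfm : ∀ k l, k ≤ l → f k ≤ f l := fun k l h =>
    Finset.sup_mono (Finset.range_mono (by omega))
  have hgf : ∀ k, g k ≤ f k := fun k => Finset.le_sup (f := g) (Finset.mem_range.2 (Nat.lt_succ_self k))
  obtain ⟨N, hN1, hN2⟩ : ∃ N : ℕ → ℕ, (∀ j, N j < N (j + 1)) ∧ ∀ j, f (a (N j)) ≤ N (j + 1) :=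
    ⟨fun j => Nat.rec 0 (fun _ r => max (r + 1) (f (a r))) j,
      fun j => lt_of_lt_of_le (Nat.lt_succ_self _) (le_max_left _ _), fun j => le_max_right _ _⟩
  have hNm : StrictMono N := strictMono_nat_of_lt_succ hN1
  refine ⟨fun i => {n | ∃ j, j % 3 = i % 3 ∧ N j = n}, ?_, ?_⟩
  · intro i
    have h1 : Function.Injective (fun t => N (3 * t + i)) := by
      intro s t hst
      have := hNm.injective hst
      omega
    exact Set.infinite_of_injective_forall_mem h1 (fun t => ⟨3 * t + i, by omega, rfl⟩)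
  · rw [eventually_atTop]
    refine ⟨a (N 0), ?_⟩
    intro k hk
    have hex : ∃ j, k < a (N (j + 1)) := ⟨k, by
      have h1 := hNm.id_le (k + 1)
      have h2 := ha.id_le (N (k + 1))
      simp only [id] at h1 h2
      omega⟩
    obtain ⟨j, hj1, hj2⟩ : ∃ j, a (N j) ≤ k ∧ k < a (N (j + 1)) := by
      classical
      refine ⟨Nat.find hex, ?_, Nat.find_spec hex⟩
      rcases hf : Nat.find hex with _ | j
      · exact hk
      · have h1 := Nat.find_min hex (m := j) (by omega)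
        omega
    refine ⟨(j + 2) % 3, Nat.mod_lt _ (by norm_num), ?_⟩
    set X := (⋃ n ∈ {n | ∃ l, l % 3 = (j + 2) % 3 % 3 ∧ N l = n}, Set.Ico (a n) (a (n + 1))) with hX
    have hinf : X.Infinite := by
      have h1 : Function.Injective (fun t => a (N (3 * t + (j + 2)))) := by
        intro s t hst
        have hst' : a (N (3 * s + (j + 2))) = a (N (3 * t + (j + 2))) := hst
        have e1 : N (3 * s + (j + 2)) = N (3 * t + (j + 2)) := ha.injective hst'
        have e2 : 3 * s + (j + 2) = 3 * t + (j + 2) := hNm.injective e1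
        omega
      refine Set.infinite_of_injective_forall_mem h1 (fun t => ?_)
      rw [hX]
      simp only [Set.mem_iUnion]
      exact ⟨N (3 * t + (j + 2)), ⟨3 * t + (j + 2), by omega, rfl⟩, le_rfl, ha (Nat.lt_succ_self _)⟩
    obtain ⟨h1, h2⟩ := nx_mem hinf k
    rw [hX] at h1
    simp only [Set.mem_iUnion] at h1
    obtain ⟨n, ⟨l, hl, rfl⟩, h3, h4⟩ := h1
    rw [← hX] at h3 h4
    have h5 : N j < N l + 1 := by
      rw [← ha.lt_iff_lt]
      omega
    have h6 : j ≤ l := by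
      rw [← hNm.le_iff_le]
      omega
    have h7 : j + 2 ≤ l := by omega
    have h8 : a (N (j + 2)) ≤ a (N l) := ha.monotone (hNm.monotone h7)
    have h9 : N (j + 2) ≤ a (N (j + 2)) := ha.id_le _
    have h10 := hN2 (j + 1)
    have h11 := hfm k (a (N (j + 1))) (by omega)
    have h12 := hgf k
    have h13 : N (j + 1 + 1) = N (j + 2) := rfl
    omega

/-- the family attached to an ideal -/
def GF (F : Set (Set C2)) : Set (Set ℕ) := {X | X.Infinite ∧ BB (nx X) ∉ F}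

theorem GF_dense {F : Set (Set C2)} (hF : IsIdeal F) {g : ℕ → ℕ} (hg : BB g ∉ F) : GroupwiseDense (GF F) := by
  refine ⟨fun X hX => hX.1, ?_, ?_⟩
  · rintro X ⟨hX, hXF⟩ Y hY hYX
    refine ⟨hY, fun h => hXF ?_⟩
    apply hF.2.2 _ _ _ h
    apply BB_mono
    obtain ⟨N, hN⟩ := hYX.bddAbove
    rw [leS, eventually_atTop]
    refine ⟨N, fun k hk => ?_⟩
    obtain ⟨h1, h2⟩ := nx_mem hY k
    by_cases h3 : nx Y k ∈ X
    · exact nx_le h3 h2
    · have h4 := hN ⟨h1, h3⟩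
      omega
  · intro a ha _
    obtain ⟨Z, hZ, hZg⟩ := cover g a ha
    by_contra hc
    push Not at hc
    have hinf : ∀ i, (⋃ n ∈ Z i, Set.Ico (a n) (a (n + 1))).Infinite := by
      intro i
      have h1 : Set.InjOn a (Z i) := ha.injective.injOn
      refine ((hZ i).image h1).mono ?_
      rintro _ ⟨n, hn, rfl⟩
      simp only [Set.mem_iUnion]
      exact ⟨n, hn, le_rfl, ha (Nat.lt_succ_self _)⟩
    have hmem : ∀ i, BB (nx (⋃ n ∈ Z i, Set.Ico (a n) (a (n + 1)))) ∈ F := by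
      intro i
      by_contra h
      exact hc (Z i) (hZ i) ⟨hinf i, h⟩
    apply hg
    let W : ℕ → ℕ → ℕ := fun i => nx (⋃ n ∈ Z i, Set.Ico (a n) (a (n + 1)))
    let W' : ℕ → ℕ := fun k => max (W 1 k) (W 2 k)
    have h1 : BB W' ⊆ BB (W 1) ∪ BB (W 2) := BB_sup (Eventually.of_forall (fun k => by
      show max (W 1 k) (W 2 k) ≤ W 1 k ∨ max (W 1 k) (W 2 k) ≤ W 2 k
      omega))
    have h2 : BB g ⊆ BB (W 0) ∪ BB W' := BB_sup (hZg.mono (fun k hk => by
      obtain ⟨i, hi, hk⟩ := hk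
      have hk' : g k ≤ W i k := hk
      show g k ≤ W 0 k ∨ g k ≤ max (W 1 k) (W 2 k)
      interval_cases i
      · exact Or.inl hk'
      · right
        omega
      · right
        omega))
    have h3 : BB W' ∈ F := hF.2.2 _ _ h1 (hF.2.1 _ (hmem 1) _ (hmem 2))
    exact hF.2.2 _ _ h2 (hF.2.1 _ (hmem 0) _ h3)

theorem gg_le (γ : Ordinal.{0}) (F : Ordinal.{0} → Set (Set C2)) (h : IsSeq IsIdeal ND γ F) : gg.ord ≤ γ := by
  obtain ⟨hlim, hid, hun, hlt⟩ := h
  by_contra hc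
  push Not at hc
  rw [Cardinal.lt_ord] at hc
  have hex : ∀ α < γ, ∃ g, BB g ∉ F α := by
    intro α hα
    have h1 : Order.succ α < γ := hlim.succ_lt hα
    have h2 := hlt α (Order.succ α) (Order.lt_succ α) h1
    obtain ⟨A, hA, hA'⟩ := Set.exists_of_ssubset h2
    obtain ⟨g, hg⟩ := (hun A).2 ⟨_, h1, hA⟩
    exact ⟨g, fun hh => hA' ((hid α hα).2.2 _ _ hg hh)⟩
  let S : Set (Set (Set ℕ)) := Set.range (fun t : γ.ToType => GF (F (t : Ordinal)))
  have hS : ∀ G ∈ S, GroupwiseDense G := by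
    rintro _ ⟨t, rfl⟩
    have ht : (t : Ordinal) < γ := t.toOrd.2
    obtain ⟨g, hg⟩ := hex _ ht
    exact GF_dense (hid _ ht) hg
  by_cases hE : ⋂₀ S = ∅
  · have h1 : gg ≤ Cardinal.mk S := csInf_le' ⟨S, hS, hE, rfl⟩
    have h2 : Cardinal.mk S ≤ γ.card := by
      rw [← Cardinal.mk_toType]
      exact Cardinal.mk_range_le
    exact absurd (h1.trans h2) (not_le.2 hc)
  · rw [← ne_eq, ← Set.nonempty_iff_ne_empty] at hE
    obtain ⟨X, hX⟩ := hE
    obtain ⟨α, hα, hm⟩ := (hun (BB (nx X))).1 ⟨_, subset_rfl⟩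
    have h1 : GF (F α) ∈ S := ⟨Ordinal.ToType.mk ⟨α, hα⟩, by
      show GF (F ((Ordinal.ToType.mk.symm (Ordinal.ToType.mk ⟨α, hα⟩) : Set.Iio γ) : Ordinal)) = GF (F α)
      rw [OrderIso.symm_apply_apply]⟩
    exact (hX _ h1).2 hm

end Pool.Agent.X317.CF
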