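import Mathlib
import Pool.Agent.X317.CF.Gd

/-!
# The bounding number and chains of downward closed families
-/

set_option autoImplicit false
set_option linter.all false

namespace Pool.Agent.X317.CF

open Filter Cardinal

theorem leS_trans {f g h : ℕ → ℕ} (h1 : leS f g) (h2 : leS g h) : leS f h :=
  (h1.and h2).mono (fun _ hn => hn.1.trans hn.2)

theorem bdd_of_lt {H : Set (ℕ → ℕ)} (hH : Cardinal.mk H < bb) : ∃ g, ∀ h ∈ H, leS h g := by
  by_contra hc
  push Not at hc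
  exact absurd (csInf_le' ⟨H, hc, rfl⟩ : bb ≤ Cardinal.mk H) (not_le.2 hH)

theorem bb_attained : ∃ F : Set (ℕ → ℕ), (∀ g, ∃ f ∈ F, ¬ leS f g) ∧ bb = Cardinal.mk F := by
  have h : {c : Cardinal.{0} | ∃ F : Set (ℕ → ℕ), (∀ g, ∃ f ∈ F, ¬ leS f g) ∧ c = Cardinal.mk F}.Nonempty := by
    refine ⟨_, Set.univ, fun g => ⟨fun n => g n + 1, Set.mem_univ _, fun h => ?_⟩, rfl⟩
    obtain ⟨n, hn⟩ := h.exists
    have hn' : g n + 1 ≤ g n := hn
    omega
  exact csInf_mem h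

theorem bb_inf : ℵ₀ ≤ bb := by
  obtain ⟨F, hF, hb⟩ := bb_attained
  by_contra hc
  push Not at hc
  rw [hb, Cardinal.lt_aleph0_iff_set_finite] at hc
  obtain ⟨f, hf, hff⟩ := hF (fun n => hc.toFinset.sup (fun f => f n))
  apply hff
  apply Eventually.of_forall
  intro n
  exact Finset.le_sup (f := fun f : ℕ → ℕ => f n) (hc.mem_toFinset.2 hf)

theorem scale : ∃ φ : (bb.ord).ToType → (ℕ → ℕ), (∀ v w, v < w → leS (fun n => φ v n + 1) (φ w)) ∧
    ∀ g, ∃ w, ¬ leS (φ w) g := by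
  classical
  obtain ⟨F, hF, hb⟩ := bb_attained
  have hcard : Cardinal.mk (bb.ord).ToType = Cardinal.mk F := by
    rw [Cardinal.mk_ord_toType, hb]
  obtain ⟨e⟩ := Cardinal.eq.1 hcard
  let bnd : Set (ℕ → ℕ) → (ℕ → ℕ) := fun H => if h : ∃ g, ∀ h ∈ H, leS h g then h.choose else 0
  have hbnd : ∀ H : Set (ℕ → ℕ), Cardinal.mk H < bb → ∀ h ∈ H, leS h (bnd H) := by
    intro H hH
    have h1 := bdd_of_lt hH
    show ∀ h ∈ H, leS h (if h : ∃ g, ∀ h ∈ H, leS h g then h.choose else 0)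
    rw [dif_pos h1]
    exact h1.choose_spec
  let φ : (bb.ord).ToType → (ℕ → ℕ) := wellFounded_lt.fix (fun w ih =>
    bnd (insert (e w).1 (Set.range (fun v : Set.Iio w => fun n => ih v.1 v.2 n + 1))))
  have hφ : ∀ w, φ w = bnd (insert (e w).1 (Set.range (fun v : Set.Iio w => fun n => φ v.1 n + 1))) := by
    intro w
    exact wellFounded_lt.fix_eq _ w
  have hlt : ∀ w : (bb.ord).ToType, Cardinal.mk ↥(insert (e w).1 (Set.range (fun v : Set.Iio w => fun n => φ v.1 n + 1)) : Set (ℕ → ℕ)) < bb := by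
    intro w
    refine lt_of_le_of_lt (Cardinal.mk_insert_le) ?_
    apply Cardinal.add_lt_of_lt bb_inf
    · exact lt_of_le_of_lt Cardinal.mk_range_le (Cardinal.mk_Iio_toType_ord_lt w)
    · exact lt_of_lt_of_le Cardinal.one_lt_aleph0 bb_inf
  refine ⟨φ, ?_, ?_⟩
  · intro v w hvw
    rw [hφ w]
    exact hbnd _ (hlt w) _ (Set.mem_insert_of_mem _ ⟨⟨v, hvw⟩, rfl⟩)
  · intro g
    obtain ⟨f, hf, hff⟩ := hF g
    refine ⟨e.symm ⟨f, hf⟩, fun h => hff ?_⟩
    refine leS_trans ?_ h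
    rw [hφ]
    have h1 := hbnd _ (hlt (e.symm ⟨f, hf⟩)) (e (e.symm ⟨f, hf⟩)).1 (Set.mem_insert _ _)
    rw [Equiv.apply_symm_apply] at h1
    rw [Equiv.apply_symm_apply]
    exact h1

theorem star_le : cofinStar ND ≤ (bb.ord : Ordinal.{0}) := by
  classical
  obtain ⟨φ, h1, h2⟩ := scale
  have h1' : ∀ v w, v < w → leS (φ v) (φ w) := fun v w hvw =>
    leS_trans (Eventually.of_forall (fun n => by show φ v n ≤ φ v n + 1; omega)) (h1 v w hvw)
  have h1'' : ∀ v w, v < w → ¬ leS (φ w) (φ v) := by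
    intro v w hvw h
    obtain ⟨n, hn⟩ := (leS_trans (h1 v w hvw) h).exists
    have hn' : φ v n + 1 ≤ φ v n := hn
    omega
  have hmk : ∀ (α : Ordinal.{0}), α < bb.ord → ∃ w : (bb.ord).ToType, (w : Ordinal.{0}) = α := by
    intro α hα
    refine ⟨Ordinal.ToType.mk ⟨α, hα⟩, ?_⟩
    show ((Ordinal.ToType.mk.symm (Ordinal.ToType.mk ⟨α, hα⟩) : Set.Iio bb.ord) : Ordinal.{0}) = α
    rw [OrderIso.symm_apply_apply]
  have hlt' : ∀ v w : (bb.ord).ToType, (v : Ordinal.{0}) < (w : Ordinal.{0}) → v < w := by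
    intro v w h
    exact (Ordinal.ToType.mk.symm.lt_iff_lt).1 h
  have hinj : ∀ v w : (bb.ord).ToType, (v : Ordinal.{0}) = (w : Ordinal.{0}) → v = w := by
    intro v w h
    exact Ordinal.ToType.mk.symm.injective (Subtype.ext h)
  apply sInf_le
  refine ⟨bb.ord, fun α => {A | A ∈ ND ∧ ∃ w : (bb.ord).ToType, (w : Ordinal.{0}) = α ∧ ¬ BB (φ w) ⊆ A},
    rfl, Cardinal.isSuccLimit_ord bb_inf, ?_, ?_, ?_⟩
  · rintro α hα a b hab ⟨⟨g, hg⟩, w, hw, hb⟩
    exact ⟨⟨g, hab.trans hg⟩, w, hw, fun h => hb (h.trans hab)⟩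
  · intro A
    constructor
    · rintro ⟨g, hg⟩
      obtain ⟨w, hw⟩ := h2 g
      exact ⟨(w : Ordinal), w.toOrd.2, ⟨g, hg⟩, w, rfl, fun h => hw (BB_sub.1 (h.trans hg))⟩
    · rintro ⟨α, hα, hA⟩
      exact hA.1
  · intro α β hαβ hβ
    obtain ⟨v, rfl⟩ := hmk α (hαβ.trans hβ)
    obtain ⟨w, rfl⟩ := hmk β hβ
    have hlt := hlt' v w hαβ
    constructor
    · rintro A ⟨hA, v', hv', hA'⟩
      have e := hinj v' v hv'
      subst e
      exact ⟨hA, w, rfl, fun h => hA' ((BB_mono (h1' _ _ hlt)).trans h)⟩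
    · intro h
      obtain ⟨_, v', hv', hh⟩ := h (⟨⟨_, subset_rfl⟩, w, rfl, fun hh => h1'' _ _ hlt (BB_sub.1 hh)⟩ :
        BB (φ v) ∈ {A | A ∈ ND ∧ ∃ w' : (bb.ord).ToType, (w' : Ordinal.{0}) = (w : Ordinal.{0}) ∧ ¬ BB (φ w') ⊆ A})
      have e := hinj v' v hv'
      subst e
      exact hh subset_rfl

theorem minus_ge : (gg.ord : Ordinal.{0}) ≤ cofinMinus ND := by
  apply le_sInf
  rintro _ ⟨γ, F, rfl, h⟩
  exact WithTop.coe_le_coe.2 (gg_le γ F h)

theorem ND_sigma : IsSigma ND := by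
  refine ⟨⟨0, Set.empty_subset _⟩, ?_, ?_⟩
  · intro s hs
    choose g hg using hs
    refine ⟨fun k => (Finset.range (k + 1)).sup (fun n => g n k), ?_⟩
    apply Set.iUnion_subset
    intro n
    refine (hg n).trans (BB_mono ?_)
    rw [leS, eventually_atTop]
    exact ⟨n, fun k hk => Finset.le_sup (f := fun n => g n k) (Finset.mem_range.2 (by omega))⟩
  · rintro a b hab ⟨g, hg⟩
    exact ⟨g, hab.trans hg⟩

theorem open_coord (k : ℕ) (b : Bool) : IsOpen {x : C2 | x k = b} := by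
  have h : Continuous (fun x : ℕ → Bool => x k) := continuous_apply k
  exact (isOpen_discrete ({b} : Set Bool)).preimage h

theorem BB_borel (g : ℕ → ℕ) : @MeasurableSet C2 (borel C2) (BB g) := by
  letI : MeasurableSpace C2 := borel C2
  haveI : BorelSpace C2 := ⟨rfl⟩
  have h0 : ∀ (k : ℕ) (b : Bool), MeasurableSet {x : C2 | x k = b} := by
    intro k b
    exact (open_coord k b).measurableSet
  have h1 : BB g = ⋂ N : ℕ, ⋃ n : ℕ, ⋃ (_ : N ≤ n),
      ((⋃ m : ℕ, ⋃ (_ : m < g n), {x : C2 | x (Nat.pair n m) = true}) ∪ ⋂ m : ℕ, {x : C2 | x (Nat.pair n m) = false}) := by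
    ext x
    simp only [BB, Set.mem_setOf_eq, frequently_atTop, Set.mem_iInter, Set.mem_iUnion, Set.mem_union]
    constructor
    · intro h N
      obtain ⟨n, hn, h⟩ := h N
      refine ⟨n, hn, ?_⟩
      rcases h with ⟨m, hm, h⟩ | h
      · exact Or.inl ⟨m, hm, h⟩
      · exact Or.inr h
    · intro h N
      obtain ⟨n, hn, h⟩ := h N
      refine ⟨n, hn, ?_⟩
      rcases h with ⟨m, hm, h⟩ | h
      · exact Or.inl ⟨m, hm, h⟩
      · exact Or.inr h
  rw [h1]
  refine MeasurableSet.iInter fun N => MeasurableSet.iUnion fun n => MeasurableSet.iUnion fun _ => ?_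
  refine MeasurableSet.union ?_ (MeasurableSet.iInter fun m => h0 _ _)
  exact MeasurableSet.iUnion fun m => MeasurableSet.iUnion fun _ => h0 _ _

theorem ND_borel : IsBorelSigma ND := by
  refine ⟨ND_sigma, ?_⟩
  rintro a ⟨g, hg⟩
  exact ⟨BB g, ⟨g, subset_rfl⟩, hg, BB_borel g⟩

theorem ND_singleton (x : C2) : {x} ∈ ND := by
  classical
  refine ⟨fun n => if h : ∃ m, x (Nat.pair n m) = true then Nat.find h + 1 else 0, ?_⟩
  rw [Set.singleton_subset_iff]
  apply Filter.Eventually.frequently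
  apply Eventually.of_forall
  intro n
  by_cases h : ∃ m, x (Nat.pair n m) = true
  · left
    refine ⟨Nat.find h, ?_, Nat.find_spec h⟩
    show Nat.find h < if h : ∃ m, x (Nat.pair n m) = true then Nat.find h + 1 else 0
    rw [dif_pos h]
    omega
  · right
    push Not at h
    intro m
    have := h m
    exact Bool.eq_false_iff.2 this

theorem ND_proper : Set.univ ∉ ND := by
  rintro ⟨g, hg⟩
  have h := hg (Set.mem_univ (code g))
  rw [code_mem] at h
  obtain ⟨n, hn⟩ := h.exists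
  omega

end Pool.Agent.X317.CF
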