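import Mathlib
import Pool.Agent.X317.CF.Bb

/-!
# Higher dominating numbers
-/

set_option autoImplicit false
set_option linter.all false

namespace Pool.Agent.X317.CF

open Filter Cardinal

/-- `𝔡^λ_κ` -/
noncomputable def dLK (lam kap : Cardinal.{0}) : Cardinal.{0} :=
  sInf {c | ∃ D : Set (lam.ord.ToType → kap.ord.ToType),
    (∀ f : lam.ord.ToType → kap.ord.ToType, ∃ g ∈ D,
      Cardinal.mk {α : lam.ord.ToType // g α < f α} < kap) ∧ c = Cardinal.mk D}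

/-- everywhere dominating number -/
noncomputable def dEv (lam kap : Cardinal.{0}) : Cardinal.{0} :=
  sInf {c | ∃ D : Set (lam.ord.ToType → kap.ord.ToType),
    (∀ f : lam.ord.ToType → kap.ord.ToType, ∃ g ∈ D, ∀ α, f α ≤ g α) ∧ c = Cardinal.mk D}

/-- `𝔡(≤*_{∅})` -/
noncomputable def dStar : Cardinal.{0} :=
  sInf {c | ∃ D : Set ((ℕ → ℕ) → (ℕ → ℕ)),
    (∀ f : (ℕ → ℕ) → (ℕ → ℕ), ∃ g ∈ D, ∀ x, leS (f x) (g x)) ∧ c = Cardinal.mk D}

theorem bb_regular : bb.IsRegular := by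
  refine ⟨bb_inf, ?_⟩
  obtain ⟨φ, h1, h2⟩ := scale
  rw [← Ordinal.cof_toType]
  obtain ⟨s, hs, hsc⟩ := Order.exists_cof_eq (bb.ord).ToType
  rw [← hsc]
  by_contra hc
  push Not at hc
  obtain ⟨g, hg⟩ := bdd_of_lt (H := φ '' s) (lt_of_le_of_lt Cardinal.mk_image_le hc)
  obtain ⟨w, hw⟩ := h2 g
  obtain ⟨s', hs', hws⟩ := hs w
  apply hw
  rcases eq_or_lt_of_le hws with rfl | hlt
  · exact hg _ ⟨_, hs', rfl⟩
  · refine leS_trans ?_ (hg _ ⟨s', hs', rfl⟩)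
    exact leS_trans (Eventually.of_forall (fun n => by show φ w n ≤ φ w n + 1; omega)) (h1 w s' hlt)

theorem bdd_reg {κ : Cardinal.{0}} (hκ : κ.IsRegular) (S : Set κ.ord.ToType) (hS : Cardinal.mk S < κ) :
    ∃ γ, ∀ s ∈ S, s < γ := by
  by_contra hc
  push Not at hc
  have h1 : IsCofinal S := fun γ => by
    obtain ⟨s, hs, h⟩ := hc γ
    exact ⟨s, hs, h⟩
  have h2 := Order.cof_le h1
  rw [Ordinal.cof_toType, hκ.cof_ord] at h2
  exact absurd h2 (not_le.2 hS)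

theorem Iic_lt {κ : Cardinal.{0}} (hκ : κ.IsRegular) (v : κ.ord.ToType) : Cardinal.mk (Set.Iic v) < κ := by
  have h : Set.Iic v = insert v (Set.Iio v) := by
    ext x
    simp only [Set.mem_Iic, Set.mem_insert_iff, Set.mem_Iio]
    exact le_iff_eq_or_lt
  rw [h]
  refine lt_of_le_of_lt Cardinal.mk_insert_le ?_
  exact Cardinal.add_lt_of_lt hκ.aleph0_le (Cardinal.mk_Iio_toType_ord_lt v)
    (lt_of_lt_of_le Cardinal.one_lt_aleph0 hκ.aleph0_le)

theorem matrix {κ : Cardinal.{0}} (hκ : κ.IsRegular) (L : Type) [LinearOrder L] [WellFoundedLT L] :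
    ∃ F : WithTop L → L → κ.ord.ToType, ∀ Ξ : Set L, κ ≤ Cardinal.mk Ξ → ∃ δ, ∀ v, ∃ ξ ∈ Ξ, v < F δ ξ := by
  classical
  have hne : Nonempty κ.ord.ToType := by
    rw [← Cardinal.mk_ne_zero_iff, Cardinal.mk_ord_toType]
    exact hκ.ne_zero
  obtain ⟨w0⟩ := hne
  let P : WithTop L → (κ.ord.ToType → L) → Prop := fun δ c =>
    (∀ ξ : L, (ξ : WithTop L) < δ → ∃ i, ξ < c i) ∧ ∀ i, ((c i : L) : WithTop L) < δ
  have hF : ∃ F : WithTop L → L → κ.ord.ToType, ∀ δ, (∃ c, P δ c) → ∃ c, P δ c ∧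
      ∀ ξ : L, (ξ : WithTop L) < δ → ξ < c (F δ ξ) := by
    have : ∀ δ : WithTop L, ∃ Fδ : L → κ.ord.ToType, (∃ c, P δ c) → ∃ c, P δ c ∧
        ∀ ξ : L, (ξ : WithTop L) < δ → ξ < c (Fδ ξ) := by
      intro δ
      by_cases h : ∃ c, P δ c
      · obtain ⟨c, hc⟩ := h
        have h1 : ∀ ξ : L, ∃ i, (ξ : WithTop L) < δ → ξ < c i := by
          intro ξ
          by_cases hξ : (ξ : WithTop L) < δ
          · obtain ⟨i, hi⟩ := hc.1 ξ hξ
            exact ⟨i, fun _ => hi⟩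
          · exact ⟨w0, fun h => absurd h hξ⟩
        choose Fδ hFδ using h1
        exact ⟨Fδ, fun _ => ⟨c, hc, hFδ⟩⟩
      · exact ⟨fun _ => w0, fun hh => absurd hh h⟩
    choose F hF using this
    exact ⟨F, hF⟩
  obtain ⟨F, hF⟩ := hF
  refine ⟨F, fun Ξ hΞ => ?_⟩
  have hT : {δ : WithTop L | κ ≤ Cardinal.mk ↥{ξ : L | ξ ∈ Ξ ∧ (ξ : WithTop L) < δ}}.Nonempty := by
    refine ⟨⊤, ?_⟩
    have e : {ξ : L | ξ ∈ Ξ ∧ (ξ : WithTop L) < ⊤} = Ξ := by
      ext ξ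
      simp only [Set.mem_setOf_eq, WithTop.coe_lt_top, and_true]
    show κ ≤ Cardinal.mk ↥{ξ : L | ξ ∈ Ξ ∧ (ξ : WithTop L) < ⊤}
    rw [e]
    exact hΞ
  obtain ⟨δ, hδ, hmin⟩ := WellFounded.has_min (wellFounded_lt (α := WithTop L)) _ hT
  have hδ' : κ ≤ Cardinal.mk ↥{ξ : L | ξ ∈ Ξ ∧ (ξ : WithTop L) < δ} := hδ
  have hsmall : ∀ ξ₀ : L, (ξ₀ : WithTop L) < δ → Cardinal.mk ↥{ξ : L | ξ ∈ Ξ ∧ (ξ : WithTop L) < (ξ₀ : WithTop L)} < κ := by
    intro ξ₀ h0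
    by_contra hc
    push Not at hc
    exact hmin _ hc h0
  refine ⟨δ, ?_⟩
  have hP : ∃ c, P δ c := by
    have h1 : Cardinal.mk κ.ord.ToType ≤ Cardinal.mk ↥{ξ : L | ξ ∈ Ξ ∧ (ξ : WithTop L) < δ} := by
      rw [Cardinal.mk_ord_toType]
      exact hδ'
    obtain ⟨j⟩ := (Cardinal.le_def _ _).1 h1
    refine ⟨fun i => (j i).1, ?_, fun i => (j i).2.2⟩
    intro ξ hξ
    by_contra hc
    push Not at hc
    have h2 : Set.range (fun i => (j i).1) ⊆ insert ξ {η : L | η ∈ Ξ ∧ (η : WithTop L) < (ξ : WithTop L)} := by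
      rintro _ ⟨i, rfl⟩
      rcases eq_or_lt_of_le (hc i) with h | h
      · exact Or.inl h
      · exact Or.inr ⟨(j i).2.1, WithTop.coe_lt_coe.2 h⟩
    have h3 : Cardinal.mk (Set.range (fun i => (j i).1)) = κ := by
      rw [Cardinal.mk_range_eq _ (fun a b hab => j.injective (Subtype.ext hab)), Cardinal.mk_ord_toType]
    have h4 := Cardinal.mk_le_mk_of_subset h2
    rw [h3] at h4
    refine absurd (h4.trans Cardinal.mk_insert_le) (not_le.2 ?_)
    exact Cardinal.add_lt_of_lt hκ.aleph0_le (hsmall ξ hξ)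
      (lt_of_lt_of_le Cardinal.one_lt_aleph0 hκ.aleph0_le)
  obtain ⟨c, hc, hcF⟩ := hF δ hP
  intro v
  by_contra hcon
  push Not at hcon
  have hsub : {ξ : L | ξ ∈ Ξ ∧ (ξ : WithTop L) < δ} ⊆
      ⋃ i ∈ Set.Iic v, {ξ : L | ξ ∈ Ξ ∧ (ξ : WithTop L) < ((c i : L) : WithTop L)} := by
    rintro ξ ⟨h1, h2⟩
    simp only [Set.mem_iUnion]
    exact ⟨F δ ξ, hcon ξ h1, h1, WithTop.coe_lt_coe.2 (hcF ξ h2)⟩
  have h5 : Cardinal.mk ↥(⋃ i ∈ Set.Iic v, {ξ : L | ξ ∈ Ξ ∧ (ξ : WithTop L) < ((c i : L) : WithTop L)}) < κ :=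
    (Cardinal.card_biUnion_lt_iff_forall_of_isRegular hκ (Iic_lt hκ v)).2 (fun i _ => hsmall _ (hc.2 i))
  exact absurd (hδ'.trans (Cardinal.mk_le_mk_of_subset hsub)) (not_le.2 h5)

theorem lower : dLK Cardinal.continuum bb ≤ dStar := by
  classical
  obtain ⟨φ, h1, h2⟩ := scale
  have h1' : ∀ v w, v ≤ w → leS (φ v) (φ w) := by
    intro v w hvw
    rcases eq_or_lt_of_le hvw with rfl | h
    · exact Eventually.of_forall (fun n => le_rfl)
    · exact leS_trans (Eventually.of_forall (fun n => by show φ v n ≤ φ v n + 1; omega)) (h1 v w h)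
  have hne : {c : Cardinal.{0} | ∃ D : Set ((ℕ → ℕ) → (ℕ → ℕ)),
      (∀ f : (ℕ → ℕ) → (ℕ → ℕ), ∃ g ∈ D, ∀ x, leS (f x) (g x)) ∧ c = Cardinal.mk D}.Nonempty :=
    ⟨_, Set.univ, fun f => ⟨f, Set.mem_univ _, fun x => Eventually.of_forall (fun n => le_rfl)⟩, rfl⟩
  obtain ⟨D, hD, hDc⟩ := csInf_mem hne
  have hDc' : dStar = Cardinal.mk D := hDc
  have hcard : Cardinal.mk (ℕ → ℕ) = Cardinal.mk (Cardinal.continuum.{0}.ord).ToType := by
    rw [Cardinal.mk_ord_toType]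
    simp
  obtain ⟨e⟩ := Cardinal.eq.1 hcard
  choose v hv hvmin using fun g : ℕ → ℕ => WellFounded.has_min (wellFounded_lt (α := (bb.ord).ToType))
    {w | ¬ leS (φ w) g} (h2 g)
  let Ψ : ((ℕ → ℕ) → (ℕ → ℕ)) → ((Cardinal.continuum.{0}.ord).ToType → (bb.ord).ToType) :=
    fun g α => v (g (e.symm α))
  rw [hDc']
  refine (csInf_le' ⟨Ψ '' D, ?_, rfl⟩ : dLK Cardinal.continuum bb ≤ Cardinal.mk (Ψ '' D)).trans Cardinal.mk_image_le
  intro f
  obtain ⟨g, hg, hfg⟩ := hD (fun x => φ (f (e x)))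
  refine ⟨Ψ g, ⟨g, hg, rfl⟩, ?_⟩
  have h3 : ∀ α, ¬ Ψ g α < f α := by
    intro α hlt
    have h4 := hfg (e.symm α)
    have h5 : leS (φ (f α)) (g (e.symm α)) := by
      have h6 : f (e (e.symm α)) = f α := by rw [Equiv.apply_symm_apply]
      rw [← h6]
      exact h4
    exact hv (g (e.symm α)) (leS_trans (h1' _ _ hlt.le) h5)
  haveI : IsEmpty {α : (Cardinal.continuum.{0}.ord).ToType // Ψ g α < f α} := ⟨fun z => h3 z.1 z.2⟩
  rw [Cardinal.mk_eq_zero]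
  exact lt_of_lt_of_le Cardinal.aleph0_pos bb_inf

theorem stepB : dStar ≤ dEv Cardinal.continuum bb := by
  classical
  obtain ⟨F, hF⟩ := matrix bb_regular (Cardinal.continuum.{0}.ord).ToType
  have hne : {c : Cardinal.{0} | ∃ D : Set ((Cardinal.continuum.{0}.ord).ToType → (bb.ord).ToType),
      (∀ f : (Cardinal.continuum.{0}.ord).ToType → (bb.ord).ToType, ∃ g ∈ D, ∀ α, f α ≤ g α) ∧
        c = Cardinal.mk D}.Nonempty :=
    ⟨_, Set.univ, fun f => ⟨f, Set.mem_univ _, fun α => le_rfl⟩, rfl⟩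
  obtain ⟨D, hD, hDc⟩ := csInf_mem hne
  have hDc' : dEv Cardinal.continuum bb = Cardinal.mk D := hDc
  have hcard : Cardinal.mk (ℕ → ℕ) = Cardinal.mk (Cardinal.continuum.{0}.ord).ToType := by
    rw [Cardinal.mk_ord_toType]
    simp
  obtain ⟨e⟩ := Cardinal.eq.1 hcard
  have hcard2 : Cardinal.mk ((ℕ → ℕ) × WithTop (Cardinal.continuum.{0}.ord).ToType) =
      Cardinal.mk (Cardinal.continuum.{0}.ord).ToType := by
    have h1 : Cardinal.mk (WithTop (Cardinal.continuum.{0}.ord).ToType) = Cardinal.continuum := by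
      have h2 : Cardinal.mk (WithTop (Cardinal.continuum.{0}.ord).ToType) =
          Cardinal.mk (Option (Cardinal.continuum.{0}.ord).ToType) := rfl
      rw [h2, Cardinal.mk_option, Cardinal.mk_ord_toType]
      exact Cardinal.add_one_eq Cardinal.aleph0_le_continuum
    rw [Cardinal.mk_prod, Cardinal.lift_id, Cardinal.lift_id, h1, hcard, Cardinal.mk_ord_toType]
    exact Cardinal.continuum_mul_self
  obtain ⟨θ⟩ := Cardinal.eq.1 hcard2
  have hb : ∀ (h : WithTop (Cardinal.continuum.{0}.ord).ToType → (bb.ord).ToType),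
      ∃ b : ℕ → ℕ, ∀ y, (∀ δ, F δ (e y) ≤ h δ) → leS y b := by
    intro h
    have h1 : Cardinal.mk ↥(e '' {y | ∀ δ, F δ (e y) ≤ h δ}) < bb := by
      by_contra hc
      push Not at hc
      obtain ⟨δ, hδ⟩ := hF _ hc
      obtain ⟨_, ⟨y, hy, rfl⟩, hlt⟩ := hδ (h δ)
      exact absurd (hy δ) (not_le.2 hlt)
    rw [Cardinal.mk_image_eq e.injective] at h1
    obtain ⟨b, hb⟩ := bdd_of_lt h1
    exact ⟨b, fun y hy => hb y hy⟩
  choose B hB using hb
  let Ψ : ((Cardinal.continuum.{0}.ord).ToType → (bb.ord).ToType) → ((ℕ → ℕ) → (ℕ → ℕ)) :=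
    fun g x => B (fun δ => g (θ (x, δ)))
  rw [hDc']
  refine (csInf_le' ⟨Ψ '' D, ?_, rfl⟩ : dStar ≤ Cardinal.mk (Ψ '' D)).trans Cardinal.mk_image_le
  intro f
  obtain ⟨g, hg, hfg⟩ := hD (fun α => F (θ.symm α).2 (e (f (θ.symm α).1)))
  refine ⟨Ψ g, ⟨g, hg, rfl⟩, fun x => ?_⟩
  apply hB
  intro δ
  have h1 := hfg (θ (x, δ))
  rw [Equiv.symm_apply_apply] at h1
  exact h1

theorem stepA1 {κ : Cardinal.{0}} (hκ : κ.IsRegular) (hlt : κ < Cardinal.continuum) :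
    dEv Cardinal.continuum κ ≤ dLK Cardinal.continuum κ := by
  classical
  have hne : {c : Cardinal.{0} | ∃ D : Set ((Cardinal.continuum.{0}.ord).ToType → κ.ord.ToType),
      (∀ f : (Cardinal.continuum.{0}.ord).ToType → κ.ord.ToType, ∃ g ∈ D,
        Cardinal.mk {α : (Cardinal.continuum.{0}.ord).ToType // g α < f α} < κ) ∧ c = Cardinal.mk D}.Nonempty := by
    refine ⟨_, Set.univ, fun f => ⟨f, Set.mem_univ _, ?_⟩, rfl⟩
    haveI : IsEmpty {α : (Cardinal.continuum.{0}.ord).ToType // f α < f α} := ⟨fun z => lt_irrefl _ z.2⟩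
    rw [Cardinal.mk_eq_zero]
    exact hκ.pos
  obtain ⟨D, hD, hDc⟩ := csInf_mem hne
  have hDc' : dLK Cardinal.continuum κ = Cardinal.mk D := hDc
  have hcard2 : Cardinal.mk ((Cardinal.continuum.{0}.ord).ToType × (Cardinal.continuum.{0}.ord).ToType) =
      Cardinal.mk (Cardinal.continuum.{0}.ord).ToType := by
    rw [Cardinal.mk_prod, Cardinal.lift_id, Cardinal.mk_ord_toType]
    exact Cardinal.continuum_mul_self
  obtain ⟨θ⟩ := Cardinal.eq.1 hcard2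
  have hpig : ∀ h : (Cardinal.continuum.{0}.ord).ToType → κ.ord.ToType, ∃ v, κ ≤ Cardinal.mk ↥(h ⁻¹' {v}) := by
    intro h
    have hs := Cardinal.isRegular_succ hκ.aleph0_le
    obtain ⟨v, hv⟩ := Cardinal.infinite_pigeonhole_card h (Order.succ κ)
      (by rw [Cardinal.mk_ord_toType]; exact Order.succ_le_of_lt hlt) hs.aleph0_le
      (by rw [Cardinal.mk_ord_toType, hs.cof_ord]; exact Order.lt_succ κ)
    exact ⟨v, (Order.le_succ κ).trans hv⟩
  choose V hV using hpig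
  let Ψ : ((Cardinal.continuum.{0}.ord).ToType → κ.ord.ToType) → ((Cardinal.continuum.{0}.ord).ToType → κ.ord.ToType) :=
    fun g α => V (fun i => g (θ (α, i)))
  rw [hDc']
  refine (csInf_le' ⟨Ψ '' D, ?_, rfl⟩ : dEv Cardinal.continuum κ ≤ Cardinal.mk (Ψ '' D)).trans Cardinal.mk_image_le
  intro f
  obtain ⟨g, hg, hfg⟩ := hD (fun β => f (θ.symm β).1)
  refine ⟨Ψ g, ⟨g, hg, rfl⟩, fun α => ?_⟩
  by_contra hc
  push Not at hc
  have h1 := hV (fun i => g (θ (α, i)))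
  have h2 : Cardinal.mk ↥((fun i => g (θ (α, i))) ⁻¹' {V (fun i => g (θ (α, i)))}) ≤
      Cardinal.mk {β : (Cardinal.continuum.{0}.ord).ToType // g β < f (θ.symm β).1} := by
    refine Cardinal.mk_le_of_injective (f := fun i => ⟨θ (α, i.1), ?_⟩) ?_
    · have h3 : g (θ (α, i.1)) = V (fun i => g (θ (α, i))) := i.2
      rw [h3, Equiv.symm_apply_apply]
      exact hc
    · intro i j hij
      have h4 : θ (α, i.1) = θ (α, j.1) := congrArg Subtype.val hij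
      have h5 := θ.injective h4
      exact Subtype.ext (Prod.ext_iff.1 h5).2
  exact absurd (h1.trans h2) (not_le.2 hfg)

theorem stepA2 {κ : Cardinal.{0}} (hκ : κ.IsRegular) : dEv κ κ ≤ dLK κ κ := by
  classical
  have hne : {c : Cardinal.{0} | ∃ D : Set (κ.ord.ToType → κ.ord.ToType),
      (∀ f : κ.ord.ToType → κ.ord.ToType, ∃ g ∈ D,
        Cardinal.mk {α : κ.ord.ToType // g α < f α} < κ) ∧ c = Cardinal.mk D}.Nonempty := by
    refine ⟨_, Set.univ, fun f => ⟨f, Set.mem_univ _, ?_⟩, rfl⟩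
    haveI : IsEmpty {α : κ.ord.ToType // f α < f α} := ⟨fun z => lt_irrefl _ z.2⟩
    rw [Cardinal.mk_eq_zero]
    exact hκ.pos
  obtain ⟨D, hD, hDc⟩ := csInf_mem hne
  have hDc' : dLK κ κ = Cardinal.mk D := hDc
  have hDκ : κ ≤ Cardinal.mk D := by
    by_contra hc
    push Not at hc
    have h1 : ∀ α : κ.ord.ToType, ∃ γ, ∀ s ∈ (fun g : κ.ord.ToType → κ.ord.ToType => g α) '' D, s < γ :=
      fun α => bdd_reg hκ _ (lt_of_le_of_lt Cardinal.mk_image_le hc)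
    choose f hf using h1
    obtain ⟨g, hg, hfg⟩ := hD f
    have h2 : Cardinal.mk κ.ord.ToType ≤ Cardinal.mk {α : κ.ord.ToType // g α < f α} :=
      Cardinal.mk_le_of_injective (f := fun α => ⟨α, hf α _ ⟨g, hg, rfl⟩⟩) (fun a b hab => congrArg Subtype.val hab)
    rw [Cardinal.mk_ord_toType] at h2
    exact absurd h2 (not_le.2 hfg)
  let Ψ : (D × κ.ord.ToType) → (κ.ord.ToType → κ.ord.ToType) := fun z α => max (z.1.1 α) z.2
  have h3 : dEv κ κ ≤ Cardinal.mk (Set.range Ψ) := by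
    refine csInf_le' ⟨Set.range Ψ, ?_, rfl⟩
    intro f
    obtain ⟨g, hg, hfg⟩ := hD f
    obtain ⟨γ, hγ⟩ := bdd_reg hκ (f '' {α | g α < f α}) (lt_of_le_of_lt Cardinal.mk_image_le hfg)
    refine ⟨Ψ (⟨g, hg⟩, γ), ⟨_, rfl⟩, fun α => ?_⟩
    show f α ≤ max (g α) γ
    by_cases h : g α < f α
    · exact (hγ _ ⟨α, h, rfl⟩).le.trans (le_max_right _ _)
    · exact (not_lt.1 h).trans (le_max_left _ _)
  rw [hDc']
  refine h3.trans (Cardinal.mk_range_le.trans ?_)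
  rw [Cardinal.mk_prod, Cardinal.lift_id, Cardinal.lift_id, Cardinal.mk_ord_toType]
  exact (Cardinal.mul_le_max_of_aleph0_le_left (hκ.aleph0_le.trans hDκ)).trans (max_le le_rfl hDκ)

theorem bb_le : bb ≤ Cardinal.continuum := by
  obtain ⟨F, hF, hb⟩ := bb_attained
  rw [hb]
  refine (Cardinal.mk_set_le F).trans ?_
  simp

theorem dStar_eq : dStar = dLK Cardinal.continuum bb := by
  apply le_antisymm _ lower
  refine stepB.trans ?_
  rcases eq_or_lt_of_le bb_le with h | h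
  · have hr := bb_regular
    rw [h] at hr ⊢
    exact stepA2 hr
  · exact stepA1 bb_regular h

end Pool.Agent.X317.CF
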