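import Mathlib
import Pool.Agent.X317.CF.Hd

/-!
# Higher dominating numbers of relations
-/

set_option autoImplicit false
set_option linter.all false

namespace Pool.Agent.X317.CF

open Filter Cardinal

/-- `𝔟(R)` -/
noncomputable def bRel {X Y : Type} (R : X → Y → Prop) : Cardinal.{0} :=
  sInf {c | ∃ A : Set X, (∀ y, ∃ x ∈ A, ¬ R x y) ∧ c = Cardinal.mk A}

/-- `𝔡(R_{∅})` -/
noncomputable def dRel {X Y : Type} (R : X → Y → Prop) : Cardinal.{0} :=
  sInf {c | ∃ D : Set (X → Y), (∀ f : X → X, ∃ g ∈ D, ∀ x, R (f x) (g x)) ∧ c = Cardinal.mk D}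

section gen
variable {X Y : Type} (R : X → Y → Prop)

theorem rel_bdd {H : Set X} (hH : Cardinal.mk H < bRel R) : ∃ g, ∀ h ∈ H, R h g := by
  by_contra hc
  push Not at hc
  exact absurd (csInf_le' ⟨H, hc, rfl⟩ : bRel R ≤ Cardinal.mk H) (not_le.2 hH)

variable (hX : Cardinal.mk X = Cardinal.continuum) (hinf : ℵ₀ ≤ bRel R)
  (hex : ∀ y, ∃ x, ¬ R x y) (hun : ∀ x, ∃ y, R x y)
  (φ : (bRel R).ord.ToType → X) (hφ : ∀ y, ∃ γ, ∀ v, R (φ v) y → v < γ)

include hinf hφ in
theorem rel_regular : (bRel R).IsRegular := by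
  refine ⟨hinf, ?_⟩
  rw [← Ordinal.cof_toType]
  obtain ⟨s, hs, hsc⟩ := Order.exists_cof_eq (bRel R).ord.ToType
  rw [← hsc]
  by_contra hc
  push Not at hc
  obtain ⟨g, hg⟩ := rel_bdd R (H := φ '' s) (lt_of_le_of_lt Cardinal.mk_image_le hc)
  obtain ⟨γ, hγ⟩ := hφ g
  obtain ⟨s', hs', hws⟩ := hs γ
  exact absurd (hγ s' (hg _ ⟨s', hs', rfl⟩)) (not_lt.2 hws)

include hX hφ hun hinf in
theorem rel_lower : dLK Cardinal.continuum (bRel R) ≤ dRel R := by
  classical
  have hne : {c : Cardinal.{0} | ∃ D : Set (X → Y),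
      (∀ f : X → X, ∃ g ∈ D, ∀ x, R (f x) (g x)) ∧ c = Cardinal.mk D}.Nonempty := by
    choose u hu using hun
    exact ⟨_, Set.univ, fun f => ⟨fun x => u (f x), Set.mem_univ _, fun x => hu _⟩, rfl⟩
  obtain ⟨D, hD, hDc⟩ := csInf_mem hne
  have hDc' : dRel R = Cardinal.mk D := hDc
  have hcard : Cardinal.mk X = Cardinal.mk (Cardinal.continuum.{0}.ord).ToType := by
    rw [Cardinal.mk_ord_toType, hX]
  obtain ⟨e⟩ := Cardinal.eq.1 hcard
  choose v hv using hφ
  let Ψ : (X → Y) → ((Cardinal.continuum.{0}.ord).ToType → (bRel R).ord.ToType) :=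
    fun g α => v (g (e.symm α))
  rw [hDc']
  refine (csInf_le' ⟨Ψ '' D, ?_, rfl⟩ : dLK Cardinal.continuum (bRel R) ≤ Cardinal.mk (Ψ '' D)).trans Cardinal.mk_image_le
  intro f
  obtain ⟨g, hg, hfg⟩ := hD (fun x => φ (f (e x)))
  refine ⟨Ψ g, ⟨g, hg, rfl⟩, ?_⟩
  have h3 : ∀ α, ¬ Ψ g α < f α := by
    intro α hlt
    have h4 := hfg (e.symm α)
    have h5 : R (φ (f α)) (g (e.symm α)) := by
      have h6 : f (e (e.symm α)) = f α := by rw [Equiv.apply_symm_apply]
      rw [← h6]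
      exact h4
    exact absurd (hv (g (e.symm α)) (f α) h5) (not_lt.2 hlt.le)
  haveI : IsEmpty {α : (Cardinal.continuum.{0}.ord).ToType // Ψ g α < f α} := ⟨fun z => h3 z.1 z.2⟩
  rw [Cardinal.mk_eq_zero]
  exact lt_of_lt_of_le Cardinal.aleph0_pos hinf

include hX in
theorem rel_stepB (hreg : (bRel R).IsRegular) : dRel R ≤ dEv Cardinal.continuum (bRel R) := by
  classical
  obtain ⟨F, hF⟩ := matrix hreg (Cardinal.continuum.{0}.ord).ToType
  have hne : {c : Cardinal.{0} | ∃ D : Set ((Cardinal.continuum.{0}.ord).ToType → (bRel R).ord.ToType),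
      (∀ f : (Cardinal.continuum.{0}.ord).ToType → (bRel R).ord.ToType, ∃ g ∈ D, ∀ α, f α ≤ g α) ∧
        c = Cardinal.mk D}.Nonempty :=
    ⟨_, Set.univ, fun f => ⟨f, Set.mem_univ _, fun α => le_rfl⟩, rfl⟩
  obtain ⟨D, hD, hDc⟩ := csInf_mem hne
  have hDc' : dEv Cardinal.continuum (bRel R) = Cardinal.mk D := hDc
  have hcard : Cardinal.mk X = Cardinal.mk (Cardinal.continuum.{0}.ord).ToType := by
    rw [Cardinal.mk_ord_toType, hX]
  obtain ⟨e⟩ := Cardinal.eq.1 hcard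
  have hcard2 : Cardinal.mk (X × WithTop (Cardinal.continuum.{0}.ord).ToType) =
      Cardinal.mk (Cardinal.continuum.{0}.ord).ToType := by
    have h1 : Cardinal.mk (WithTop (Cardinal.continuum.{0}.ord).ToType) = Cardinal.continuum := by
      have h2 : Cardinal.mk (WithTop (Cardinal.continuum.{0}.ord).ToType) =
          Cardinal.mk (Option (Cardinal.continuum.{0}.ord).ToType) := rfl
      rw [h2, Cardinal.mk_option, Cardinal.mk_ord_toType]
      exact Cardinal.add_one_eq Cardinal.aleph0_le_continuum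
    rw [Cardinal.mk_prod, Cardinal.lift_id, Cardinal.lift_id, h1, hcard, Cardinal.mk_ord_toType]
    exact Cardinal.continuum_mul_self
  obtain ⟨θ⟩ := Cardinal.eq.1 hcard2
  have hb : ∀ (h : WithTop (Cardinal.continuum.{0}.ord).ToType → (bRel R).ord.ToType),
      ∃ b : Y, ∀ y, (∀ δ, F δ (e y) ≤ h δ) → R y b := by
    intro h
    have h1 : Cardinal.mk ↥(e '' {y | ∀ δ, F δ (e y) ≤ h δ}) < bRel R := by
      by_contra hc
      push Not at hc
      obtain ⟨δ, hδ⟩ := hF _ hc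
      obtain ⟨_, ⟨y, hy, rfl⟩, hlt⟩ := hδ (h δ)
      exact absurd (hy δ) (not_le.2 hlt)
    rw [Cardinal.mk_image_eq e.injective] at h1
    obtain ⟨b, hb⟩ := rel_bdd R h1
    exact ⟨b, fun y hy => hb y hy⟩
  choose B hB using hb
  let Ψ : ((Cardinal.continuum.{0}.ord).ToType → (bRel R).ord.ToType) → (X → Y) :=
    fun g x => B (fun δ => g (θ (x, δ)))
  rw [hDc']
  refine (csInf_le' ⟨Ψ '' D, ?_, rfl⟩ : dRel R ≤ Cardinal.mk (Ψ '' D)).trans Cardinal.mk_image_le
  intro f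
  obtain ⟨g, hg, hfg⟩ := hD (fun α => F (θ.symm α).2 (e (f (θ.symm α).1)))
  refine ⟨Ψ g, ⟨g, hg, rfl⟩, fun x => ?_⟩
  apply hB
  intro δ
  have h1 := hfg (θ (x, δ))
  rw [Equiv.symm_apply_apply] at h1
  exact h1

include hX hex in
theorem rel_le : bRel R ≤ Cardinal.continuum := by
  refine (csInf_le' ⟨Set.univ, fun y => ?_, rfl⟩ : bRel R ≤ Cardinal.mk (Set.univ : Set X)).trans ?_
  · obtain ⟨x, hx⟩ := hex y
    exact ⟨x, Set.mem_univ _, hx⟩
  · rw [Cardinal.mk_univ, hX]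

include hX hex in
/-- upper bound -/
theorem rel_upper (hreg : (bRel R).IsRegular) : dRel R ≤ dLK Cardinal.continuum (bRel R) := by
  refine (rel_stepB R hX hreg).trans ?_
  rcases eq_or_lt_of_le (rel_le R hX hex) with h | h
  · generalize bRel R = κ at hreg h ⊢
    subst h
    exact stepA2 hreg
  · exact stepA1 hreg h

include hX hinf hex hun hφ in
theorem rel_eq : dRel R = dLK Cardinal.continuum (bRel R) :=
  le_antisymm (rel_upper R hX hex (rel_regular R hinf φ hφ)) (rel_lower R hX hinf hun φ hφ)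

end gen

/-- slaloms -/
def Slalom : Type := {s : ℕ → Finset ℕ // ∀ n, (s n).card ≤ n}

/-- localization -/
def inS (x : ℕ → ℕ) (s : Slalom) : Prop := ∀ᶠ n in atTop, x n ∈ s.1 n

theorem inS_ex (s : Slalom) : ∃ x, ¬ inS x s := by
  have h : ∀ n, ∃ m, m ∉ s.1 n := fun n => Infinite.exists_notMem_finset (s.1 n)
  choose x hx using h
  refine ⟨x, fun hh => ?_⟩
  obtain ⟨n, hn⟩ := hh.exists
  exact hx n hn

theorem inS_un (x : ℕ → ℕ) : ∃ s, inS x s := by
  classical
  refine ⟨⟨fun n => if n = 0 then ∅ else {x n}, fun n => ?_⟩, ?_⟩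
  · show (if n = 0 then (∅ : Finset ℕ) else {x n}).card ≤ n
    by_cases h : n = 0
    · rw [if_pos h]
      simp
    · rw [if_neg h, Finset.card_singleton]
      omega
  · show ∀ᶠ n in atTop, x n ∈ (if n = 0 then (∅ : Finset ℕ) else {x n})
    rw [eventually_atTop]
    refine ⟨1, fun n hn => ?_⟩
    rw [if_neg (by omega)]
    exact Finset.mem_singleton_self _

theorem S_attained : ∃ A : Set (ℕ → ℕ), (∀ s : Slalom, ∃ x ∈ A, ¬ inS x s) ∧ bRel inS = Cardinal.mk A := by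
  have h : {c : Cardinal.{0} | ∃ A : Set (ℕ → ℕ), (∀ s : Slalom, ∃ x ∈ A, ¬ inS x s) ∧ c = Cardinal.mk A}.Nonempty := by
    refine ⟨_, Set.univ, fun s => ?_, rfl⟩
    obtain ⟨x, hx⟩ := inS_ex s
    exact ⟨x, Set.mem_univ _, hx⟩
  exact csInf_mem h

theorem S_inf : ℵ₀ ≤ bRel inS := by
  classical
  obtain ⟨A, hA, hb⟩ := S_attained
  by_contra hc
  push Not at hc
  rw [hb, Cardinal.lt_aleph0_iff_set_finite] at hc
  obtain ⟨x, hx, hxx⟩ := hA ⟨fun n => if hc.toFinset.card ≤ n then hc.toFinset.image (fun f => f n) else ∅, fun n => by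
    show (if hc.toFinset.card ≤ n then hc.toFinset.image (fun f => f n) else ∅).card ≤ n
    by_cases h : hc.toFinset.card ≤ n
    · rw [if_pos h]
      exact Finset.card_image_le.trans h
    · rw [if_neg h]
      simp⟩
  apply hxx
  show ∀ᶠ n in atTop, x n ∈ (if hc.toFinset.card ≤ n then hc.toFinset.image (fun f => f n) else ∅)
  rw [eventually_atTop]
  refine ⟨hc.toFinset.card, fun n hn => ?_⟩
  rw [if_pos hn]
  exact Finset.mem_image.2 ⟨x, hc.mem_toFinset.2 hx, rfl⟩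

/-- block coding -/
def blk (x : ℕ → ℕ) (n : ℕ) : ℕ := Encodable.encode ((List.range ((n + 1) * (n + 1))).map x)

theorem blk_loc {A : Set (ℕ → ℕ)} (t : ℕ → Finset ℕ) (ht : ∀ n, (t n).card ≤ n * n)
    (h : ∀ x ∈ A, ∀ᶠ n in atTop, blk x n ∈ t n) : ∃ s : Slalom, ∀ x ∈ A, inS x s := by
  classical
  refine ⟨⟨fun k => (t (Nat.sqrt k)).image (fun m => ((Encodable.decode m : Option (List ℕ)).getD []).getD k 0),
    fun k => ?_⟩, ?_⟩
  · exact Finset.card_image_le.trans ((ht _).trans (Nat.sqrt_le k))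
  · intro x hx
    obtain ⟨N, hN⟩ := eventually_atTop.1 (h x hx)
    show ∀ᶠ k in atTop, x k ∈ (t (Nat.sqrt k)).image (fun m => ((Encodable.decode m : Option (List ℕ)).getD []).getD k 0)
    rw [eventually_atTop]
    refine ⟨N * N, fun k hk => ?_⟩
    have h1 : N ≤ Nat.sqrt k := Nat.le_sqrt.2 hk
    refine Finset.mem_image.2 ⟨blk x (Nat.sqrt k), hN _ h1, ?_⟩
    have h2 : k < (Nat.sqrt k + 1) * (Nat.sqrt k + 1) := Nat.lt_succ_sqrt k
    rw [blk, Encodable.encodek]
    simp [List.getD, h2]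

theorem S_scale : ∃ φ : (bRel inS).ord.ToType → (ℕ → ℕ), ∀ t : Slalom, ∃ γ, ∀ v, inS (φ v) t → v < γ := by
  classical
  obtain ⟨A, hA, hb⟩ := S_attained
  have hcard : Cardinal.mk (bRel inS).ord.ToType = Cardinal.mk A := by
    rw [Cardinal.mk_ord_toType, hb]
  obtain ⟨e⟩ := Cardinal.eq.1 hcard
  have hs : ∀ v : (bRel inS).ord.ToType, ∃ s : Slalom, ∀ w, w < v → inS (blk (e w).1) s := by
    intro v
    obtain ⟨s, hs⟩ := rel_bdd inS (H := (fun w => blk (e w).1) '' Set.Iio v)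
      (lt_of_le_of_lt Cardinal.mk_image_le (Cardinal.mk_Iio_toType_ord_lt v))
    exact ⟨s, fun w hw => hs _ ⟨w, hw, rfl⟩⟩
  choose s hs using hs
  refine ⟨fun v n => Encodable.encode ((s v).1 n), ?_⟩
  intro t
  by_contra hc
  push Not at hc
  let t' : ℕ → Finset ℕ := fun n => (t.1 n).biUnion (fun m =>
    if (((Encodable.decode m : Option (Finset ℕ)).getD ∅).card ≤ n) then (Encodable.decode m : Option (Finset ℕ)).getD ∅ else ∅)
  have ht' : ∀ n, (t' n).card ≤ n * n := by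
    intro n
    refine (Finset.card_biUnion_le_card_mul _ _ n ?_).trans (Nat.mul_le_mul_right n (t.2 n))
    intro m _
    by_cases h : ((Encodable.decode m : Option (Finset ℕ)).getD ∅).card ≤ n
    · rw [if_pos h]
      exact h
    · rw [if_neg h]
      simp
  obtain ⟨u, hu⟩ := blk_loc (A := A) t' ht' (by
    intro x hx
    obtain ⟨w, hw⟩ := e.surjective ⟨x, hx⟩
    have hlim : ∃ γ, w < γ := by
      by_contra hcon
      push Not at hcon
      have h1 : (Set.univ : Set (bRel inS).ord.ToType) ⊆ insert w (Set.Iio w) := by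
        intro z _
        exact (hcon z).eq_or_lt
      have h2 := (Cardinal.mk_le_mk_of_subset h1).trans Cardinal.mk_insert_le
      rw [Cardinal.mk_univ, Cardinal.mk_ord_toType] at h2
      exact absurd h2 (not_le.2 (Cardinal.add_lt_of_lt S_inf (Cardinal.mk_Iio_toType_ord_lt w)
        (lt_of_lt_of_le Cardinal.one_lt_aleph0 S_inf)))
    obtain ⟨γ, hγ⟩ := hlim
    obtain ⟨v, hv, hγv⟩ := hc γ
    have h3 := hs v w (lt_of_lt_of_le hγ hγv)
    have hwx : (e w).1 = x := by rw [hw]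
    rw [hwx] at h3
    have h4 : ∀ᶠ n in atTop, Encodable.encode ((s v).1 n) ∈ t.1 n := hv
    have h5 : ∀ᶠ n in atTop, blk x n ∈ (s v).1 n := h3
    refine (h4.and h5).mono ?_
    rintro n ⟨h6, h7⟩
    refine Finset.mem_biUnion.2 ⟨_, h6, ?_⟩
    rw [Encodable.encodek]
    show blk x n ∈ if ((s v).1 n).card ≤ n then (s v).1 n else ∅
    rw [if_pos ((s v).2 n)]
    exact h7)
  obtain ⟨x, hx, hxu⟩ := hA u
  exact hxu (hu x hx)

theorem mk_NN : Cardinal.mk (ℕ → ℕ) = Cardinal.continuum := by simp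

theorem eq_inS : dRel inS = dLK Cardinal.continuum (bRel inS) := by
  obtain ⟨φ, hφ⟩ := S_scale
  exact rel_eq inS mk_NN S_inf inS_ex inS_un φ hφ

theorem bRel_leS : bRel leS = bb := rfl

theorem eq_leS : dRel leS = dLK Cardinal.continuum (bRel leS) := dStar_eq

end Pool.Agent.X317.CF
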